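import Pool.Agent.J4.H41.KL.Main
import Pool.Agent.J4.H41.KB.Transfer
import Pool.Agent.J4.H41.KB.Sharp

set_option autoImplicit false

/-!
# MP_ac5134: the volume form of the Kakeya inequality for choices of bounded variation

Work in `ℝ^n = ℝ^d × ℝ`, `n = d + 1 ≥ 2`, with its Euclidean norm (`Space d`), and let `P` be the
paraboloid `{(ω, |ω|²)}`, `|ω| ≤ 1`.  The box dual to the cap at `ω` is `box N (nor ω) f a`: its centre
is `a`, its long side `N²` is in the direction of the unit normal `nor ω = (-2ω, 1)/√(1+4|ω|²)` and its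
other sides `N` are in the directions of an arbitrary orthonormal frame `f` of the orthogonal
complement.

* Part A (partially Lipschitz choices).  Let the centre of the box be a Lipschitz function of the cap,
  at the scales `≥ 1/N`, on an ARBITRARY set `J` of at least `N^(d-c)` caps.  Then
  `∑_J |T_i| ≤ C N^ε |⋃_J T_i|`, and the volume form holds for the whole family with the loss
  `C N^ε N^d/|J|`; nothing is assumed about the boxes outside `J`.
* Part B (choices of bounded variation).  If the variation of the choice at the scale `1/N` is at most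
  `A N^(d+1)` (the order of the variation of a Lipschitz choice) on a set `J` of caps which covers some
  ball of directions, then `∑ |T_i| ≤ C N^ε |⋃ T_i|` for the whole family: the volume form of Q1 holds.
* Part C (necessary losses).  For all families of caps there are choices of bounded variation such that
  `|⋃ T_i| ≤ C (log N)^(-(n-1)) ∑ |T_i|`.
-/

open MeasureTheory Set Metric

namespace Pool.Agent.Results.MP_ac5134_an.BoundedVariation

open Pool.Agent.H810R3.Tub (Space Vec box nor)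

/-- The caps have centres `ω i` in the closed unit ball, `σ/N`-separated, and `f i` is an orthonormal
frame of the orthogonal complement of the normal at `ω i`. -/
def Caps {d : ℕ} {ι : Type} (σ N : ℝ) (ω : ι → Vec d) (f : ι → Fin d → Space d) : Prop :=
  (∀ i, ‖ω i‖ ≤ 1) ∧ (∀ i j, i ≠ j → σ / N ≤ ‖ω i - ω j‖) ∧
    ∀ i, Orthonormal ℝ (Fin.cons (nor (ω i)) (f i) : Fin (d + 1) → Space d)

/-- The centres `a i` of the boxes are a Lipschitz function of the directions `ω i` at the scales
`≥ 1/N` on the set `J` of caps, with constant `A N²`. -/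
def LipschitzCentres {d : ℕ} {ι : Type} (A N : ℝ) (ω : ι → Vec d) (a : ι → Space d)
    (J : Finset ι) : Prop :=
  ∀ i ∈ J, ∀ j ∈ J, ‖a i - a j‖ ≤ A * N ^ 2 * (‖ω i - ω j‖ + 1 / N)

/-- The caps in `J` cover the ball with centre `v` and radius `s` of directions, up to `R / N`. -/
def Covers {d : ℕ} {ι : Type} (R s N : ℝ) (v : Vec d) (ω : ι → Vec d) (J : Finset ι) : Prop :=
  ∀ u, ‖u - v‖ ≤ s → ∃ i ∈ J, ‖u - ω i‖ ≤ R / N

/-- The variation of the choice on `J`: the sum of the distances of the centres of the boxes over all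
pairs of caps in `J` at distance at most `K / N`. -/
noncomputable def variation {d : ℕ} {ι : Type} (K N : ℝ) (ω : ι → Vec d) (a : ι → Space d)
    (J : Finset ι) : ℝ :=
  ∑ i ∈ J, ∑ j ∈ J, if ‖ω i - ω j‖ ≤ K / N then ‖a i - a j‖ else 0

/-- The volume form of Q1 with the loss `M` for the boxes with indices in `J`. -/
def VolumeForm {d : ℕ} {ι : Type} (M N : ℝ) (ω : ι → Vec d) (f : ι → Fin d → Space d)
    (a : ι → Space d) (J : Finset ι) : Prop :=
  ∑ i ∈ J, volume (box N (nor (ω i)) (f i) (a i)) ≤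
    ENNReal.ofReal M * volume (⋃ i ∈ J, box N (nor (ω i)) (f i) (a i))

/-- Part A: the volume form with the loss `C N^ε` for all families of at least `N^(d-c)` boxes whose
centres are a Lipschitz function of the cap, and with the loss `C N^ε N^d/|J|` for all families which
contain such a family `J`. -/
def PartA (d : ℕ) (σ A ε : ℝ) : Prop :=
  ∃ C c : ℝ, 0 < C ∧ 0 < c ∧ ∀ N : ℝ, 1 ≤ N → ∀ (ι : Type) [Fintype ι] (ω : ι → Vec d)
    (f : ι → Fin d → Space d) (a : ι → Space d) (J : Finset ι), Caps σ N ω f →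
    LipschitzCentres A N ω a J → N ^ ((d : ℝ) - c) ≤ (J.card : ℝ) →
    VolumeForm (C * N ^ ε) N ω f a J ∧
      VolumeForm (C * N ^ ε * (N ^ d / J.card)) N ω f a Finset.univ

/-- Part B: the volume form with the loss `C N^ε` for all choices of the translates which have bounded
variation on a set of caps which covers a ball of radius `s`. -/
def PartB (d : ℕ) (σ A ε R s : ℝ) : Prop :=
  ∃ C : ℝ, 0 < C ∧ ∀ N : ℝ, 1 ≤ N → ∀ (ι : Type) [Fintype ι] (ω : ι → Vec d)
    (f : ι → Fin d → Space d) (a : ι → Space d) (J : Finset ι) (v : Vec d), Caps σ N ω f →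
    Covers R s N v ω J → variation (2 * R + 1) N ω a J ≤ A * N ^ (d + 1) →
    VolumeForm (C * N ^ ε) N ω f a Finset.univ

/-- Part C: for all `N ≥ 2` and all families of at least `κ N^d` caps there is a choice of the
translates of variation at most `A N^(d+1)` such that the volume of the union of the boxes is at most
`C (log N)^(-d)` times the sum of their volumes. -/
def PartC (d : ℕ) (σ κ K : ℝ) : Prop :=
  ∃ A C : ℝ, 0 < A ∧ 0 < C ∧ ∀ N : ℝ, 2 ≤ N → ∀ (ι : Type) [Fintype ι] (ω : ι → Vec d)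
    (f : ι → Fin d → Space d), Caps σ N ω f → κ * N ^ d ≤ (Fintype.card ι : ℝ) →
    ∃ a : ι → Space d, variation K N ω a Finset.univ ≤ A * N ^ (d + 1) ∧
      volume (⋃ i, box N (nor (ω i)) (f i) (a i)) ≤
        ENNReal.ofReal (C / Real.log N ^ d) * ∑ i, volume (box N (nor (ω i)) (f i) (a i))

theorem sum_vol {d : ℕ} {ι : Type} {σ N : ℝ} (hN : 1 ≤ N) {ω : ι → Vec d}
    {f : ι → Fin d → Space d} {a : ι → Space d} (hc : Caps σ N ω f) (J : Finset ι) :
    ∑ i ∈ J, volume (box N (nor (ω i)) (f i) (a i)) =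
      ENNReal.ofReal ((J.card : ℝ) * N ^ (d + 2)) := by
  rw [Finset.sum_congr rfl (fun i _ => Pool.Agent.H810R3.Tub.vol_box hN (hc.2.2 i) _),
    Finset.sum_const, nsmul_eq_mul, ENNReal.ofReal_mul (Nat.cast_nonneg _), ENNReal.ofReal_natCast]

theorem mono_vol {d : ℕ} {ι : Type} [Fintype ι] (N : ℝ) (ω : ι → Vec d)
    (f : ι → Fin d → Space d) (a : ι → Space d) (J : Finset ι) :
    volume (⋃ i ∈ J, box N (nor (ω i)) (f i) (a i)) ≤
      volume (⋃ i ∈ (Finset.univ : Finset ι), box N (nor (ω i)) (f i) (a i)) := by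
  refine measure_mono ?_
  intro x hx
  simp only [mem_iUnion, exists_prop] at hx ⊢
  obtain ⟨i, -, hx⟩ := hx
  exact ⟨i, Finset.mem_univ i, hx⟩

theorem partA (d : ℕ) (hd : 1 ≤ d) (σ A ε : ℝ) (hσ : 0 < σ) (hA : 0 < A) (hε : 0 < ε) :
    PartA d σ A ε := by
  obtain ⟨C, c, hC, hc, h⟩ := Pool.Agent.J4.H41.KL.main d hd σ A ε hσ hA hε
  have hd0 : (0 : ℝ) < d := by exact_mod_cast hd
  obtain ⟨B, hB⟩ : ∃ B : ℝ, B = (16 * d / σ + 2) ^ d := ⟨_, rfl⟩
  have hB0 : 0 < B := by rw [hB]; positivity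
  have hB1 : 1 ≤ B := by
    rw [hB]
    refine one_le_pow₀ ?_
    have : 0 ≤ 16 * d / σ := by positivity
    linarith
  refine ⟨C * B, c, by positivity, hc, ?_⟩
  intro N hN ι _ ω f a J hcaps hJ hcard
  have hN0 : 0 < N := by linarith
  have hNε : 0 < N ^ ε := Real.rpow_pos_of_pos hN0 _
  have hJpos : (0 : ℝ) < J.card := lt_of_lt_of_le (Real.rpow_pos_of_pos hN0 _) hcard
  have h1 := h N hN J (fun i => ω i) (fun i => f i) (fun i => a i) (fun i => hcaps.1 i)
    (fun i j hij => hcaps.2.1 i j (fun e => hij (Subtype.ext e))) (fun i => hcaps.2.2 i)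
    (fun i j => hJ i i.2 j j.2) (by rw [Fintype.card_coe]; exact hcard)
  have e1 : ∑ i : J, volume (box N (nor (ω i)) (f i) (a i)) =
      ∑ i ∈ J, volume (box N (nor (ω i)) (f i) (a i)) :=
    Finset.sum_coe_sort J (fun i => volume (box N (nor (ω i)) (f i) (a i)))
  have e2 : (⋃ i : J, box N (nor (ω i)) (f i) (a i)) = ⋃ i ∈ J, box N (nor (ω i)) (f i) (a i) := by
    ext x
    simp
  rw [e1, e2] at h1
  constructor
  · refine h1.trans ?_
    gcongr
    nlinarith
  · unfold VolumeForm
    have htot := Pool.Agent.J4.H41.KL.card_total hd hσ hN hcaps.1 hcaps.2.1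
    rw [← hB] at htot
    rw [sum_vol hN hcaps, Finset.card_univ]
    rw [sum_vol hN hcaps] at h1
    have h3 : (Fintype.card ι : ℝ) * N ^ (d + 2) ≤
        B * (N ^ d / J.card) * ((J.card : ℝ) * N ^ (d + 2)) := by
      have e : B * (N ^ d / J.card) * ((J.card : ℝ) * N ^ (d + 2)) = B * N ^ d * N ^ (d + 2) := by
        field_simp
      rw [e]
      exact mul_le_mul_of_nonneg_right htot (by positivity)
    calc ENNReal.ofReal ((Fintype.card ι : ℝ) * N ^ (d + 2))
        ≤ ENNReal.ofReal (B * (N ^ d / J.card) * ((J.card : ℝ) * N ^ (d + 2))) :=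
          ENNReal.ofReal_le_ofReal h3
      _ = ENNReal.ofReal (B * (N ^ d / J.card)) * ENNReal.ofReal ((J.card : ℝ) * N ^ (d + 2)) :=
          ENNReal.ofReal_mul (by positivity)
      _ ≤ ENNReal.ofReal (B * (N ^ d / J.card)) * (ENNReal.ofReal (C * N ^ ε) *
            volume (⋃ i ∈ (Finset.univ : Finset ι), box N (nor (ω i)) (f i) (a i))) := by
          refine mul_le_mul' le_rfl (h1.trans (mul_le_mul' le_rfl ?_))
          exact mono_vol N ω f a J
      _ = _ := by
          rw [← mul_assoc, ← ENNReal.ofReal_mul (by positivity)]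
          congr 2
          ring

theorem partB (d : ℕ) (hd : 1 ≤ d) (σ A ε R s : ℝ) (hσ : 0 < σ) (hA : 0 < A) (hε : 0 < ε)
    (hR : 0 < R) (hs : 0 < s) : PartB d σ A ε R s := by
  classical
  obtain ⟨κ, A', hκ, hA', htr⟩ := Pool.Agent.J4.H41.KB.transfer hd R s A hR hs hA
  obtain ⟨C, c, hC, hc, h⟩ := partA d hd σ A' ε hσ hA' hε
  have hd0 : (0 : ℝ) < d := by exact_mod_cast hd
  obtain ⟨B, hB⟩ : ∃ B : ℝ, B = (16 * d / σ + 2) ^ d := ⟨_, rfl⟩
  have hB0 : 0 < B := by rw [hB]; positivity
  -- the size of `N` from which on the proportion `κ` is enough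
  obtain ⟨N₀, hN₀⟩ : ∃ N₀ : ℝ, N₀ = max 1 ((1 / κ) ^ (1 / c)) := ⟨_, rfl⟩
  have hN₀1 : 1 ≤ N₀ := by rw [hN₀]; exact le_max_left _ _
  have hN₀0 : 0 < N₀ := by linarith
  refine ⟨C / κ + B * N₀ ^ d, by positivity, ?_⟩
  intro N hN ι _ ω f a J₀ v hcaps hcov hvar
  have hN0 : 0 < N := by linarith
  have hNε : 1 ≤ N ^ ε := Real.one_le_rpow hN hε.le
  -- the Lipschitz subfamily
  obtain ⟨J, hcard, hJ⟩ : ∃ J : Finset ι, κ * N ^ d ≤ (J.card : ℝ) ∧ LipschitzCentres A' N ω a J := by
    obtain ⟨J₁, h1, h2⟩ := htr N hN J₀ (fun i => ω i) (fun i => a i) v (by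
      intro u hu
      obtain ⟨i, hi, hui⟩ := hcov u hu
      exact ⟨⟨i, hi⟩, hui⟩) (by
      refine le_trans (le_of_eq ?_) hvar
      unfold variation
      rw [← Finset.sum_coe_sort J₀]
      refine Finset.sum_congr rfl fun i _ => ?_
      rw [← Finset.sum_coe_sort J₀])
    refine ⟨J₁.map (Function.Embedding.subtype _), ?_, ?_⟩
    · rw [Finset.card_map]
      exact h1
    · intro i hi j hj
      rw [Finset.mem_map] at hi hj
      obtain ⟨i', hi', rfl⟩ := hi
      obtain ⟨j', hj', rfl⟩ := hj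
      exact h2 i' hi' j' hj'
  have hJpos : (0 : ℝ) < J.card := lt_of_lt_of_le (by positivity) hcard
  have htot := Pool.Agent.J4.H41.KL.card_total hd hσ hN hcaps.1 hcaps.2.1
  rw [← hB] at htot
  by_cases hbig : N₀ ≤ N
  · have h1 : N ^ ((d : ℝ) - c) ≤ (J.card : ℝ) := by
      refine le_trans ?_ hcard
      have h2 : 1 / κ ≤ N ^ c := by
        have h3 : (1 / κ) ^ (1 / c) ≤ N := by
          rw [hN₀] at hbig
          exact (le_max_right _ _).trans hbig
        have h4 := Real.rpow_le_rpow (by positivity) h3 hc.le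
        rw [← Real.rpow_mul (by positivity), one_div_mul_cancel hc.ne', Real.rpow_one] at h4
        exact h4
      have h3 : 1 ≤ κ * N ^ c := by
        rw [div_le_iff₀ hκ] at h2
        linarith
      have h4 : N ^ d = N ^ ((d : ℝ) - c) * N ^ c := by
        rw [← Real.rpow_add hN0, sub_add_cancel, Real.rpow_natCast]
      have h5 : 0 < N ^ ((d : ℝ) - c) := Real.rpow_pos_of_pos hN0 _
      rw [h4]
      nlinarith
    have h2 := (h N hN ι ω f a J hcaps hJ h1).2
    refine h2.trans (mul_le_mul' (ENNReal.ofReal_le_ofReal ?_) le_rfl)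
    have h3 : N ^ d / J.card ≤ 1 / κ := by
      rw [div_le_div_iff₀ hJpos hκ]
      linarith
    calc C * N ^ ε * (N ^ d / J.card) ≤ C * N ^ ε * (1 / κ) := by gcongr
      _ = C / κ * N ^ ε := by ring
      _ ≤ (C / κ + B * N₀ ^ d) * N ^ ε := by
          have : 0 ≤ B * N₀ ^ d * N ^ ε := by positivity
          linarith
  · -- `N` is bounded
    push Not at hbig
    have hJne : J.Nonempty := by
      rw [← Finset.card_pos]
      exact_mod_cast hJpos
    obtain ⟨i₀, hi₀⟩ := hJne
    unfold VolumeForm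
    rw [sum_vol hN hcaps, Finset.card_univ]
    have h1 : ENNReal.ofReal (N ^ (d + 2)) ≤
        volume (⋃ i ∈ (Finset.univ : Finset ι), box N (nor (ω i)) (f i) (a i)) := by
      rw [← Pool.Agent.H810R3.Tub.vol_box hN (hcaps.2.2 i₀) (a i₀)]
      refine measure_mono ?_
      intro x hx
      simp only [mem_iUnion, exists_prop]
      exact ⟨i₀, Finset.mem_univ i₀, hx⟩
    have h2 : (Fintype.card ι : ℝ) ≤ (C / κ + B * N₀ ^ d) * N ^ ε := by
      have h3 : (Fintype.card ι : ℝ) ≤ B * N₀ ^ d := by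
        refine htot.trans ?_
        gcongr
      have h5 : 0 ≤ C / κ := by positivity
      have h6 : 0 ≤ B * N₀ ^ d := by positivity
      refine h3.trans ?_
      nlinarith
    calc ENNReal.ofReal ((Fintype.card ι : ℝ) * N ^ (d + 2))
        = ENNReal.ofReal (Fintype.card ι : ℝ) * ENNReal.ofReal (N ^ (d + 2)) :=
          ENNReal.ofReal_mul (by positivity)
      _ ≤ _ := by
          gcongr

/-- **The volume form of the Kakeya inequality for partially Lipschitz choices and choices of bounded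
variation, and the necessary losses.** -/
theorem result (d : ℕ) (hd : 1 ≤ d) (σ : ℝ) (hσ : 0 < σ) :
    (∀ A ε : ℝ, 0 < A → 0 < ε → PartA d σ A ε ∧ ∀ R s : ℝ, 0 < R → 0 < s → PartB d σ A ε R s) ∧
      ∀ κ K : ℝ, 0 < κ → 0 < K → PartC d σ κ K := by
  refine ⟨fun A ε hA hε => ⟨partA d hd σ A ε hσ hA hε, fun R s hR hs =>
    partB d hd σ A ε R s hσ hA hε hR hs⟩, fun κ K hκ hK => ?_⟩
  obtain ⟨A, C, hA, hC, h⟩ := Pool.Agent.J4.H41.KB.sharp d hd σ κ K hσ hκ hK
  refine ⟨A, C, hA, hC, ?_⟩
  intro N hN ι _ ω f hcaps hcard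
  exact h N hN ι ω f hcaps.1 hcaps.2.1 hcard hcaps.2.2

end Pool.Agent.Results.MP_ac5134_an.BoundedVariation
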