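import Pool.Agent.J4.H87.HolP

set_option autoImplicit false

/-!
# MP_ac5134: the volume form of the Kakeya inequality for Lipschitz and Hölder translates

Work in `ℝ^n = ℝ^d × ℝ`, `n = d + 1 ≥ 3`, with its Euclidean norm (`Space d`), and let `P` be the
paraboloid `{(ω, |ω|²)}`, `|ω| ≤ 1`.  The box dual to the cap at `ω` is `box N (nor ω) f a`: its centre
is `a`, its long side `N²` is in the direction of the unit normal `nor ω = (-2ω, 1)/√(1+4|ω|²)` and its
other sides `N` are in the directions of an arbitrary orthonormal frame `f` of the orthogonal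
complement.

Let `(n-2)/(n-1) < α ≤ 1`.

* Part A. The boxes are translated so that their centres are an `α`-Hölder function of the cap at all
  scales `≥ 1/N`: `|a_i - a_j| ≤ A N² (|ω_i - ω_j| + 1/N)^α`.  If the caps cover a ball of radius `s` of
  directions (all directions if `s = 1`), then
  `|⋃ T_i| ≥ (C (A/s)^p N^((n-1)(1-α)))⁻¹ ∑ |T_i|`.
  For `α = 1`, i.e. for Lipschitz choices of the translates, there is no loss in `N`.
* Part B. If `b` is `α`-Hölder with constant `A` on a ball of radius `s`, the union of the unit segments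
  `{(b(u) + t u, t) : 0 ≤ t ≤ 1}` has measure at least `(C (A/s)^p)⁻¹`.
-/

open MeasureTheory Set Filter Topology ENNReal NNReal Metric

namespace Pool.Agent.Results.MP_ac5134_an.HolderTranslates

open Pool.Agent.H810R3.Tub (Space Vec box nor)

/-- The caps with the centres `ω i` in the closed unit ball cover the ball of radius `s` with centre `v`
(up to `R / N`), there are at most `K N^d` of them, and `f i` is an orthonormal frame of the orthogonal
complement of the normal at `ω i`. -/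
def Caps {d : ℕ} {ι : Type} [Fintype ι] (R K N s : ℝ) (v : Vec d) (ω : ι → Vec d)
    (f : ι → Fin d → Space d) : Prop :=
  (∀ i, ‖ω i‖ ≤ 1) ∧ (∀ u, ‖u - v‖ ≤ s → ∃ i, ‖u - ω i‖ ≤ R / N) ∧
    (Fintype.card ι : ℝ) ≤ K * N ^ d ∧
    ∀ i, Orthonormal ℝ (Fin.cons (nor (ω i)) (f i) : Fin (d + 1) → Space d)

/-- The centres `a i` of the boxes are an `α`-Hölder function of the directions `ω i` at the scales
`≥ 1/N`, with constant `A N²`. -/
def HolderCentres {d : ℕ} {ι : Type} (A α N : ℝ) (ω : ι → Vec d) (a : ι → Space d) : Prop :=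
  ∀ i j, ‖a i - a j‖ ≤ A * N ^ 2 * (‖ω i - ω j‖ + 1 / N) ^ α

/-- The union of the segments `{(b u + t u, t) : 0 ≤ t ≤ 1}` over the ball of radius `s` with
centre `v`. -/
def segments {d : ℕ} (b : Vec d → Vec d) (v : Vec d) (s : ℝ) : Set (Space d) :=
  {q | ∃ u, ‖u - v‖ ≤ s ∧ ∃ t ∈ Icc (0 : ℝ) 1, q = WithLp.toLp 2 (b u + t • u, t)}

/-- The volume form of Q1 with the constant `C` for the boxes with the centres `a i`. -/
def VolumeForm {d : ℕ} {ι : Type} [Fintype ι] (C N : ℝ) (ω : ι → Vec d) (f : ι → Fin d → Space d)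
    (a : ι → Space d) : Prop :=
  ENNReal.ofReal C⁻¹ * ∑ i, volume (box N (nor (ω i)) (f i) (a i)) ≤
    volume (⋃ i, box N (nor (ω i)) (f i) (a i))

/-- Part A: the volume form with the constant `M N^(d(1-α))` for all choices of the translates which
are `α`-Hölder with constant `A` and all caps covering the ball of radius `s` with centre `v`. -/
def PartA {d : ℕ} (R K α A s : ℝ) (v : Vec d) (M : ℝ) : Prop :=
  ∀ N : ℝ, 1 ≤ N → ∀ (ι : Type) [Fintype ι] (ω : ι → Vec d) (f : ι → Fin d → Space d)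
    (a : ι → Space d), Caps R K N s v ω f → HolderCentres A α N ω a →
    VolumeForm (M * N ^ (d * (1 - α))) N ω f a

/-- Part B: the lower bound `1/M` for the measure of the union of the segments, for all functions which
are `α`-Hölder with constant `A` on the ball of radius `s` with centre `v`. -/
def PartB {d : ℕ} (α A s : ℝ) (v : Vec d) (M : ℝ) : Prop :=
  ∀ b : Vec d → Vec d, (∀ u w, ‖u - v‖ ≤ s → ‖w - v‖ ≤ s → ‖b u - b w‖ ≤ A * ‖u - w‖ ^ α) →
    ENNReal.ofReal M⁻¹ ≤ volume (segments b v s)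

/-- **The volume form of the Kakeya inequality for Lipschitz and Hölder choices of the translates.** -/
theorem result (d : ℕ) (hd : 2 ≤ d) (α : ℝ) (hα : ((d : ℝ) - 1) / d < α) (hα1 : α ≤ 1) (R K : ℝ)
    (hR : 0 < R) (hK : 0 < K) :
    ∃ C p : ℝ, 0 < C ∧ 0 ≤ p ∧ ∀ A s : ℝ, 1 ≤ A → 0 < s → s ≤ 1 → ∀ v : Vec d,
      PartA R K α A s v (C * (A / s) ^ p) ∧ PartB α A s v (C * (A / s) ^ p) := by
  obtain ⟨C₁, p₁, hC₁, hp₁, h₁⟩ := Pool.Agent.J4.H87.Hol.boxes hd hα hα1 hR hK
  obtain ⟨C₂, p₂, hC₂, hp₂, h₂⟩ := Pool.Agent.J4.H87.Hol.segments hd hα hα1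
  refine ⟨max C₁ C₂, max p₁ p₂, lt_max_of_lt_left hC₁, le_max_of_le_left hp₁, ?_⟩
  intro A s hA hs hs1 v
  have hX : 1 ≤ A / s := by
    rw [le_div_iff₀ hs]
    linarith
  have hX0 : 0 < A / s := by linarith
  have e1 : (A / s) ^ p₁ ≤ (A / s) ^ max p₁ p₂ := Real.rpow_le_rpow_of_exponent_le hX (le_max_left _ _)
  have e2 : (A / s) ^ p₂ ≤ (A / s) ^ max p₁ p₂ := Real.rpow_le_rpow_of_exponent_le hX (le_max_right _ _)
  constructor
  · intro N hN ι _ ω f a ⟨hω, hcov, hcard, hf⟩ ha
    have h := h₁ A s N ι v ω f a hA hs hs1 hN hω hcov hcard hf ha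
    refine le_trans ?_ h
    have hN0 : 0 < N := by linarith
    gcongr
    exact le_max_left _ _
  · intro b hb
    have h := h₂ A s v b hA hs hs1 hb
    refine le_trans (ENNReal.ofReal_le_ofReal ?_) h
    gcongr
    exact le_max_right _ _

end Pool.Agent.Results.MP_ac5134_an.HolderTranslates
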