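import Pool.Agent.J4.H87.HypI

set_option autoImplicit false

/-!
# MP_ac5134: families of boxes which lie in few hyperplanes

Work in `ℝ^n = ℝ^d × ℝ`, `n = d + 1`, with its Euclidean norm (`Space d`), and let `P` be the
paraboloid `{(ω, |ω|²)}`, `|ω| ≤ 1`.  The box dual to the cap at `ω` is `box N (nor ω) f 0`: its long
side `N²` is in the direction of the unit normal `nor ω = (-2ω, 1)/√(1+4|ω|²)` and its other sides `N`
are in the directions of an arbitrary orthonormal frame `f` of the orthogonal complement.  The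
translates `box N (nor ω) f a` have arbitrary centres `a`.

A family of sets in `ℝ^n` is *organised* with the widths `R` and the numbers `Q 0, Q 1, …` if it is the
union of at most `Q 0` subfamilies, each of them contained in the `R`-neighbourhood of an ARBITRARY
hyperplane, if each of these subfamilies is the union of at most `Q 1` subfamilies, each of them
contained in the `R`-neighbourhood of an arbitrary affine subspace of dimension `n - 2` of the first
hyperplane, and so on, down to the dimension `2`.  In `ℝ^2` every family is organised.  In `ℝ^3` this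
means that the sets lie in the `R`-neighbourhoods of at most `Q 0` arbitrary planes.

For the boxes which are organised with the widths `K N` and the numbers `μ_r N` the conjectured
comparison with the centred family is proved, for all `p` in `[1, ∞]`: at the critical exponent
`n/(n-1)` the constant is `C ∏ μ_r^((n-2-r)/n)`, without any loss in `N`, below it there are also the
powers of `1 + log N` which are necessary there, and for `p ≥ q > n/(n-1)` there is no loss in `N`.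
The boxes which come within `K N` of one of `m` arbitrary lines are organised; for them the constant at
the critical exponent is `C m^((n-2)/n)`.
-/

open MeasureTheory Set Filter Topology ENNReal NNReal Metric

namespace Pool.Agent.Results.MP_ac5134_an.HyperplaneFamilies

/-- Euclidean space `ℝ^d`. -/
abbrev Vec (d : ℕ) : Type := EuclideanSpace ℝ (Fin d)

/-- Euclidean space `ℝ^{d+1}`, written as `ℝ^d × ℝ` with the Euclidean norm. -/
abbrev Space (d : ℕ) : Type := WithLp 2 (Vec d × ℝ)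

/-- The unit normal `(-2ω, 1)/√(1+4|ω|²)` of the paraboloid at the point over `ω`. -/
noncomputable def nor {d : ℕ} (ω : Vec d) : Space d :=
  (√(1 + ‖-(2 : ℝ) • ω‖ ^ 2))⁻¹ • WithLp.toLp 2 (-(2 : ℝ) • ω, (1:ℝ))

/-- The box with centre `a`, with one side of length `N²` in the direction `e` and with sides of length
`N` in the directions `f j`. -/
def box {d : ℕ} (N : ℝ) (e : Space d) (f : Fin d → Space d) (a : Space d) : Set (Space d) :=
  {y | |inner ℝ e (y - a)| ≤ N ^ 2 / 2 ∧ ∀ j, |inner ℝ (f j) (y - a)| ≤ N / 2}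

/-- The caps have centres `ω i` in the closed unit ball, `σ/N`-separated and at least `κ N^d` in
number, and `f i` is an orthonormal frame of the orthogonal complement of the normal at `ω i`. -/
def Caps {d : ℕ} {ι : Type} [Fintype ι] (σ κ N : ℝ) (ω : ι → Vec d) (f : ι → Fin d → Space d) : Prop :=
  (∀ i, ‖ω i‖ ≤ 1) ∧ (∀ i j, i ≠ j → σ / N ≤ ‖ω i - ω j‖) ∧ κ * N ^ d ≤ (Fintype.card ι : ℝ) ∧
    ∀ i, Orthonormal ℝ (Fin.cons (nor (ω i)) (f i) : Fin (d + 1) → Space d)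

/-- The sum of the indicators of the boxes of the caps with centres `a i`. -/
noncomputable def boxSum {d : ℕ} {ι : Type} [Fintype ι] (N : ℝ) (ω : ι → Vec d)
    (f : ι → Fin d → Space d) (a : ι → Space d) (y : Space d) : ℝ :=
  ∑ i, (box N (nor (ω i)) (f i) (a i)).indicator (fun _ => (1 : ℝ)) y

/-- The closed slab of half-width `R` around the hyperplane of all `y` with `⟨ν, y⟩ = c` (for a unit
vector `ν`). -/
def Slab {d : ℕ} (R : ℝ) (ν : Space d) (c : ℝ) : Set (Space d) := {y | |inner ℝ ν y - c| ≤ R}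

/-- The sets `T i`, `i ∈ J`, are organised: either `r ≥ d - 1 = n - 2`, or the index set `J` is covered
by `m ≤ Q r` finite sets `P j` such that the sets `T i`, `i ∈ P j`, lie in a slab of half-width `R`
around a hyperplane with a unit normal `ν j` orthogonal to the previous normals `e 0, …, e (r-1)`, and
such that each of the families `P j` is organised, with the additional normal `ν j`. -/
inductive Organised {d : ℕ} {ι : Type} (R : ℝ) (Q : ℕ → ℝ) (T : ι → Set (Space d)) :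
    (r : ℕ) → (Fin r → Space d) → Finset ι → Prop
  | planar (r : ℕ) (e : Fin r → Space d) (J : Finset ι) (h : d ≤ r + 1) : Organised R Q T r e J
  | split (r : ℕ) (e : Fin r → Space d) (J : Finset ι) (m : ℕ) (P : Fin m → Finset ι)
      (ν : Fin m → Space d) (c : Fin m → ℝ) (hm : (m : ℝ) ≤ Q r)
      (hcov : ∀ i ∈ J, ∃ j, i ∈ P j)
      (hν : ∀ j, Orthonormal ℝ (Fin.snoc e (ν j) : Fin (r + 1) → Space d))
      (hslab : ∀ j, ∀ i ∈ P j, T i ⊆ Slab R (ν j) (c j))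
      (hrec : ∀ j, Organised R Q T (r + 1) (Fin.snoc e (ν j)) (P j)) : Organised R Q T r e J

/-- The family of boxes: the caps satisfy `Caps`, and the boxes with the centres `a i` are organised
with the widths `K N` and the numbers `μ r * N`. -/
def Family {d : ℕ} {ι : Type} [Fintype ι] (σ κ K : ℝ) (μ : ℕ → ℝ) (N : ℝ) (ω : ι → Vec d)
    (f : ι → Fin d → Space d) (a : ι → Space d) : Prop :=
  Caps σ κ N ω f ∧ Organised (K * N) (fun r => μ r * N) (fun i => box N (nor (ω i)) (f i) (a i)) 0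
    (fun i => i.elim0) Finset.univ

/-- All boxes come within `K N` of one of the `m` lines through `q j` with the directions `v j`. -/
def MeetLines {d : ℕ} {ι : Type} (K N : ℝ) (ω : ι → Vec d) (f : ι → Fin d → Space d) (a : ι → Space d)
    {m : ℕ} (q v : Fin m → Space d) : Prop :=
  ∀ i, ∃ j, ∃ y ∈ box N (nor (ω i)) (f i) (a i), ∃ t : ℝ, ‖y - (q j + t • v j)‖ ≤ K * N

/-- The loss `∏ μ_r^(d-1-r)`, `0 ≤ r < d - 1`. -/
noncomputable def loss (d : ℕ) (μ : ℕ → ℝ) : ℝ := ∏ r ∈ Finset.range (d - 1), μ r ^ (d - 1 - r)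

/-- The comparison of the `L^p` norms with the constant `C`. -/
def Ineq {d : ℕ} {ι : Type} [Fintype ι] (p : ℝ≥0∞) (C N : ℝ) (ω : ι → Vec d)
    (f : ι → Fin d → Space d) (a : ι → Space d) : Prop :=
  eLpNorm (boxSum N ω f a) p volume ≤ ENNReal.ofReal C * eLpNorm (boxSum N ω f 0) p volume

theorem Organised.toOrg {d : ℕ} {ι : Type} {R : ℝ} {Q : ℕ → ℝ} {T : ι → Set (Space d)} {r : ℕ}
    {e : Fin r → Space d} {J : Finset ι} (h : Organised R Q T r e J) :
    Pool.Agent.J4.H87.Hyp.Org R Q T r e J := by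
  induction h with
  | planar r e J h => exact Pool.Agent.J4.H87.Hyp.Org.planar r e J h
  | split r e J m P ν c hm hcov hν hslab _ ih =>
    exact Pool.Agent.J4.H87.Hyp.Org.split r e J m P ν c hm hcov hν hslab ih

theorem Organised.ofOrg {d : ℕ} {ι : Type} {R : ℝ} {Q : ℕ → ℝ} {T : ι → Set (Space d)} {r : ℕ}
    {e : Fin r → Space d} {J : Finset ι} (h : Pool.Agent.J4.H87.Hyp.Org R Q T r e J) :
    Organised R Q T r e J := by
  induction h with
  | planar r e J h => exact Organised.planar r e J h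
  | split r e J m P ν c hm hcov hν hslab _ ih =>
    exact Organised.split r e J m P ν c hm hcov hν hslab ih

theorem loss_eq (d : ℕ) (μ : ℕ → ℝ) : loss d μ = Pool.Agent.J4.H87.Hyp.W μ 0 (d - 1) := by
  rw [Pool.Agent.J4.H87.Hyp.W_prod]
  unfold loss
  simp only [Nat.zero_add]

theorem exp_eq {d : ℕ} (hd : 1 ≤ d) : ((d : ℝ) + 1) / d = 1 + 1 / (d : ℝ) := by
  have hd0 : (0 : ℝ) < d := by exact_mod_cast hd
  field_simp

theorem crit (d : ℕ) (hd : 1 ≤ d) (σ κ K : ℝ) (hσ : 0 < σ) (hσ1 : σ ≤ 1) (hκ : 0 < κ) (hK : 1 ≤ K) :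
    ∃ C : ℝ, 0 < C ∧ ∀ N : ℝ, 1 ≤ N → ∀ μ : ℕ → ℝ, (∀ r, 1 ≤ μ r) → ∀ (ι : Type) [Fintype ι]
      (ω : ι → Vec d) (f : ι → Fin d → Space d) (a : ι → Space d), Caps σ κ N ω f →
      Pool.Agent.J4.H87.Hyp.Org (K * N) (fun r => μ r * N) (fun i => box N (nor (ω i)) (f i) (a i)) 0
        (fun i => i.elim0) Finset.univ →
      Ineq (ENNReal.ofReal (((d : ℝ) + 1) / d)) (C * loss d μ ^ (1 / ((d : ℝ) + 1))) N ω f a := by
  have hd0 : (0 : ℝ) < d := by exact_mod_cast hd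
  obtain ⟨C, hC, h⟩ := Pool.Agent.J4.H87.Hyp.endpoint hd hκ
  have hC1 := Pool.Agent.J4.H87.Hyp.C1_ge (d := d) hσ hσ1 hK
  set A := Pool.Agent.J4.H87.Hyp.C1 d σ K with hA
  have hA0 : 0 < A := by linarith
  refine ⟨C * A ^ (1 / (1 + 1 / (d : ℝ))), by positivity, ?_⟩
  intro N hN μ hμ ι _ ω f a ⟨hω, hsep, hcard, hf⟩ hO
  have hN0 : 0 < N := by linarith
  have hc0 : (0 : ℝ) < (Fintype.card ι : ℝ) := lt_of_lt_of_le (by positivity) hcard
  have hne : Nonempty ι := by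
    rw [← Fintype.card_pos_iff]
    exact_mod_cast hc0
  have hS : Pool.Agent.J4.H87.Hyp.Sep N σ ω f := ⟨hN, hσ, hσ1, hω, hsep, hf⟩
  have hW : 1 ≤ Pool.Agent.J4.H87.Hyp.W μ 0 (d - 1) := Pool.Agent.J4.H87.Hyp.W_pos hμ _ _
  have hW0 : 0 < Pool.Agent.J4.H87.Hyp.W μ 0 (d - 1) := by linarith
  have hQ := Pool.Agent.J4.H87.Hyp.crit_top hd hμ hS hK a _ hO
  have h1 := h ι N hN ω f a hcard hf _ (by positivity) hQ
  unfold Ineq
  rw [exp_eq hd, loss_eq]
  refine h1.trans (le_of_eq ?_)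
  congr 2
  rw [Real.mul_rpow hA0.le (by positivity), ← Real.rpow_mul hW0.le, mul_assoc]
  congr 3
  field_simp

theorem low (d : ℕ) (hd : 1 ≤ d) (σ κ K : ℝ) (hσ : 0 < σ) (hσ1 : σ ≤ 1) (hκ : 0 < κ) (hK : 1 ≤ K) :
    ∃ C : ℝ, 0 < C ∧ ∀ N : ℝ, 1 ≤ N → ∀ μ : ℕ → ℝ, (∀ r, 1 ≤ μ r) → ∀ (ι : Type) [Fintype ι]
      (ω : ι → Vec d) (f : ι → Fin d → Space d) (a : ι → Space d), Caps σ κ N ω f →
      Pool.Agent.J4.H87.Hyp.Org (K * N) (fun r => μ r * N) (fun i => box N (nor (ω i)) (f i) (a i)) 0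
        (fun i => i.elim0) Finset.univ → ∀ p : ℝ, 1 ≤ p → p ≤ ((d : ℝ) + 1) / d →
      Ineq (ENNReal.ofReal p) (C * (loss d μ ^ (1 / (d : ℝ)) * (1 + Real.log N)) ^ ((d : ℝ) * (1 - 1 / p)))
        N ω f a := by
  have hd0 : (0 : ℝ) < d := by exact_mod_cast hd
  obtain ⟨C, hC, h⟩ := Pool.Agent.J4.H87.Hyp.below hd hκ
  have hC1 := Pool.Agent.J4.H87.Hyp.C1_ge (d := d) hσ hσ1 hK
  set A := Pool.Agent.J4.H87.Hyp.C1 d σ K with hA
  have hA0 : 0 < A := by linarith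
  refine ⟨C * A, by positivity, ?_⟩
  intro N hN μ hμ ι _ ω f a ⟨hω, hsep, hcard, hf⟩ hO p hp hpq
  have hN0 : 0 < N := by linarith
  have hc0 : (0 : ℝ) < (Fintype.card ι : ℝ) := lt_of_lt_of_le (by positivity) hcard
  have hne : Nonempty ι := by
    rw [← Fintype.card_pos_iff]
    exact_mod_cast hc0
  have hS : Pool.Agent.J4.H87.Hyp.Sep N σ ω f := ⟨hN, hσ, hσ1, hω, hsep, hf⟩
  have hW : 1 ≤ Pool.Agent.J4.H87.Hyp.W μ 0 (d - 1) := Pool.Agent.J4.H87.Hyp.W_pos hμ _ _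
  have hW0 : 0 < Pool.Agent.J4.H87.Hyp.W μ 0 (d - 1) := by linarith
  have hQ := Pool.Agent.J4.H87.Hyp.crit_top hd hμ hS hK a _ hO
  rw [exp_eq hd] at hpq
  have h1 := h ι N hN ω f a hcard hf _ (by positivity) hQ p hp hpq
  unfold Ineq
  rw [loss_eq]
  refine h1.trans (mul_le_mul' (ENNReal.ofReal_le_ofReal ?_) le_rfl)
  have hlog := Real.log_nonneg hN
  have hp0 : 0 < p := by linarith
  have hz : (d : ℝ) * (1 - 1 / p) ≤ 1 := by
    have h2 : 1 / (1 + 1 / (d : ℝ)) ≤ 1 / p := one_div_le_one_div_of_le hp0 hpq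
    have h3 : 1 / (1 + 1 / (d : ℝ)) = d / (d + 1) := by field_simp
    have h4 : (d : ℝ) * (1 - d / (d + 1)) ≤ 1 := by
      have : 1 - (d : ℝ) / (d + 1) = 1 / (d + 1) := by field_simp; ring
      rw [this, mul_one_div, div_le_one (by positivity)]
      linarith
    calc (d : ℝ) * (1 - 1 / p) ≤ d * (1 - 1 / (1 + 1 / (d : ℝ))) := by gcongr
      _ ≤ 1 := by rw [h3]; exact h4
  rw [mul_assoc A, Real.mul_rpow hA0.le (by positivity), ← mul_assoc]
  apply mul_le_mul_of_nonneg_right _ (by positivity)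
  apply mul_le_mul_of_nonneg_left _ (by linarith)
  calc A ^ ((d : ℝ) * (1 - 1 / p)) ≤ A ^ (1 : ℝ) := Real.rpow_le_rpow_of_exponent_le hC1 hz
    _ = A := Real.rpow_one A

theorem lines (d : ℕ) (hd : 1 ≤ d) (σ κ K : ℝ) (hσ : 0 < σ) (hσ1 : σ ≤ 1) (hκ : 0 < κ) (hK : 1 ≤ K) :
    ∃ C : ℝ, 0 < C ∧ ∀ N : ℝ, 1 ≤ N → ∀ (ι : Type) [Fintype ι] (ω : ι → Vec d)
      (f : ι → Fin d → Space d) (a : ι → Space d), Caps σ κ N ω f → ∀ (m : ℕ) (q v : Fin m → Space d),
      MeetLines K N ω f a q v →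
      Ineq (ENNReal.ofReal (((d : ℝ) + 1) / d)) (C * (m : ℝ) ^ (((d : ℝ) - 1) / (d + 1))) N ω f a := by
  have hd0 : (0 : ℝ) < d := by exact_mod_cast hd
  obtain ⟨C, hC, h⟩ := crit d hd σ κ (K + d + 1) hσ hσ1 hκ (by linarith)
  have hW : 1 ≤ Pool.Agent.J4.H87.Hyp.W (fun _ => 8) 0 (d - 1) :=
    Pool.Agent.J4.H87.Hyp.W_pos (fun _ => by norm_num) _ _
  have hW0 : 0 < Pool.Agent.J4.H87.Hyp.W (fun _ => 8) 0 (d - 1) := by linarith
  refine ⟨C * Pool.Agent.J4.H87.Hyp.W (fun _ => 8) 0 (d - 1) ^ (1 / ((d : ℝ) + 1)), by positivity, ?_⟩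
  intro N hN ι _ ω f a hcaps m q v hm
  obtain ⟨hω, hsep, hcard, hf⟩ := hcaps
  have hN0 : 0 < N := by linarith
  have hc0 : (0 : ℝ) < (Fintype.card ι : ℝ) := lt_of_lt_of_le (by positivity) hcard
  have hne : Nonempty ι := by
    rw [← Fintype.card_pos_iff]
    exact_mod_cast hc0
  have hm1 : 1 ≤ m := by
    obtain ⟨i⟩ := hne
    obtain ⟨j, -⟩ := hm i
    have := j.2
    omega
  have hm0 : (1 : ℝ) ≤ m := by exact_mod_cast hm1
  have hO := Pool.Agent.J4.H87.Hyp.org_lines hN hf a hm1 q v hm (fun i => i.elim0)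
  have h1 := h N hN (fun r => if r = 0 then 8 * (m : ℝ) else 8) (by
    intro r
    show 1 ≤ (if r = 0 then 8 * (m : ℝ) else 8)
    split_ifs <;> linarith) ι ω f a ⟨hω, hsep, hcard, hf⟩ hO
  unfold Ineq at h1 ⊢
  rw [loss_eq, Pool.Agent.J4.H87.Hyp.W_lines, Real.mul_rpow hW0.le (by positivity), ← mul_assoc] at h1
  refine h1.trans (le_of_eq ?_)
  congr 3
  rw [← Real.rpow_natCast, ← Real.rpow_mul (by linarith)]
  congr 1
  have : ((d - 1 : ℕ) : ℝ) = (d : ℝ) - 1 := by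
    push_cast [Nat.cast_sub hd]
    ring
  rw [this]
  field_simp

/-- **The comparison for the boxes in few hyperplanes.** (1) At the critical exponent
`p = n/(n-1) = (d+1)/d` the constant is `C ∏ μ_r^((d-1-r)/(d+1))`, where `C` depends only on `d`, `σ`,
`κ` and `K`.  (2) For `1 ≤ p ≤ n/(n-1)` it is `C (∏ μ_r^((d-1-r)/d) (1 + log N))^(d(1-1/p))`, with such
a constant `C`.  (3) For `p ≥ q > n/(n-1)`, `p = ∞` included, it is a constant which depends only on
`d`, `σ`, `κ`, `K`, `q` and `μ`.  (4) For the boxes which come within `K N` of one of `m` lines the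
constant at the critical exponent is `C m^((d-1)/(d+1))`.  (5) They are organised with the widths
`(K + d + 1) N` and the numbers `8 m N, 8 N, 8 N, …`, so that (2) and (3) apply to them as well. -/
theorem result (d : ℕ) (hd : 1 ≤ d) (σ κ K : ℝ) (hσ : 0 < σ) (hσ1 : σ ≤ 1) (hκ : 0 < κ) (hK : 1 ≤ K) :
    (∃ C : ℝ, 0 < C ∧ ∀ N : ℝ, 1 ≤ N → ∀ μ : ℕ → ℝ, (∀ r, 1 ≤ μ r) → ∀ (ι : Type) [Fintype ι]
      (ω : ι → Vec d) (f : ι → Fin d → Space d) (a : ι → Space d), Family σ κ K μ N ω f a →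
      Ineq (ENNReal.ofReal (((d : ℝ) + 1) / d)) (C * loss d μ ^ (1 / ((d : ℝ) + 1))) N ω f a) ∧
    (∃ C : ℝ, 0 < C ∧ ∀ N : ℝ, 1 ≤ N → ∀ μ : ℕ → ℝ, (∀ r, 1 ≤ μ r) → ∀ (ι : Type) [Fintype ι]
      (ω : ι → Vec d) (f : ι → Fin d → Space d) (a : ι → Space d), Family σ κ K μ N ω f a →
      ∀ p : ℝ, 1 ≤ p → p ≤ ((d : ℝ) + 1) / d →
      Ineq (ENNReal.ofReal p) (C * (loss d μ ^ (1 / (d : ℝ)) * (1 + Real.log N)) ^ ((d : ℝ) * (1 - 1 / p)))
        N ω f a) ∧
    (∀ μ : ℕ → ℝ, (∀ r, 1 ≤ μ r) → ∀ q : ℝ, ((d : ℝ) + 1) / d < q → ∃ C : ℝ, 0 < C ∧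
      ∀ N : ℝ, 1 ≤ N → ∀ (ι : Type) [Fintype ι] (ω : ι → Vec d) (f : ι → Fin d → Space d)
      (a : ι → Space d), Family σ κ K μ N ω f a → ∀ p : ℝ≥0∞, ENNReal.ofReal q ≤ p →
      Ineq p C N ω f a) ∧
    (∃ C : ℝ, 0 < C ∧ ∀ N : ℝ, 1 ≤ N → ∀ (ι : Type) [Fintype ι] (ω : ι → Vec d)
      (f : ι → Fin d → Space d) (a : ι → Space d), Caps σ κ N ω f → ∀ (m : ℕ) (q v : Fin m → Space d),
      MeetLines K N ω f a q v →
      Ineq (ENNReal.ofReal (((d : ℝ) + 1) / d)) (C * (m : ℝ) ^ (((d : ℝ) - 1) / (d + 1))) N ω f a) ∧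
    (∀ N : ℝ, 1 ≤ N → ∀ (ι : Type) [Fintype ι] (ω : ι → Vec d) (f : ι → Fin d → Space d)
      (a : ι → Space d), Caps σ κ N ω f → ∀ m : ℕ, 1 ≤ m → ∀ q v : Fin m → Space d,
      MeetLines K N ω f a q v →
      Family σ κ (K + d + 1) (fun r => if r = 0 then 8 * (m : ℝ) else 8) N ω f a) := by
  refine ⟨?_, ?_, ?_, lines d hd σ κ K hσ hσ1 hκ hK, ?_⟩
  · obtain ⟨C, hC, h⟩ := crit d hd σ κ K hσ hσ1 hκ hK
    refine ⟨C, hC, ?_⟩
    intro N hN μ hμ ι _ ω f a hF
    exact h N hN μ hμ ι ω f a hF.1 hF.2.toOrg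
  · obtain ⟨C, hC, h⟩ := low d hd σ κ K hσ hσ1 hκ hK
    refine ⟨C, hC, ?_⟩
    intro N hN μ hμ ι _ ω f a hF p hp hpq
    exact h N hN μ hμ ι ω f a hF.1 hF.2.toOrg p hp hpq
  · intro μ hμ q hq
    rw [exp_eq hd] at hq
    obtain ⟨C, hC, h⟩ := Pool.Agent.J4.H87.Hyp.sup_top hd hσ hσ1 hK hκ hμ hq
    refine ⟨C, by linarith, ?_⟩
    intro N hN ι _ ω f a hF p hp
    obtain ⟨⟨hω, hsep, hcard, hf⟩, hO⟩ := hF
    exact h ι N ω f a ⟨hN, hσ, hσ1, hω, hsep, hf⟩ hcard _ hO.toOrg p hp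
  · intro N hN ι _ ω f a hcaps m hm q v hmeet
    exact ⟨hcaps, Organised.ofOrg (Pool.Agent.J4.H87.Hyp.org_lines hN hcaps.2.2.2 a hm q v hmeet _)⟩

end Pool.Agent.Results.MP_ac5134_an.HyperplaneFamilies
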