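import Pool.Agent.J4.H89.NC.H
import Pool.Agent.Results.MP_ac5134_an.SmoothTranslates

set_option autoImplicit false

/-!
# MP_ac5134: near-centred conservative smooth translates suffice

Work in `ℝ^n = ℝ^d × ℝ`, `n = d + 1`, with its Euclidean norm (`Space d`), and let `P` be the
paraboloid `{(ω, |ω|²)}`, `|ω| ≤ 1`.  The box dual to the cap at `ω` is `box N (nor ω) f 0`: its long
side `N²` is in the direction of the unit normal `nor ω = (-2ω, 1)/√(1+4|ω|²)` and its other sides `N`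
are in the directions of an arbitrary orthonormal frame `f` of the orthogonal complement.  The
translates `box N (nor ω) f a` have arbitrary centres `a`.

A family of translates is NEAR-CENTRED, CONSERVATIVE and SMOOTH of order `m` if its centres are the
points `(N² ∇φ(ω), 0)` for one smooth function `φ` on `ℝ^d` whose derivatives of order at most `m + 1`
are bounded by `η`, if moreover these centres have the distance at most `η N^(1 + 1/(m+1))` from the
origin (the length of the boxes is `N²`), and if at most `η N^d` of them are different from the origin.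
For these families the volume form of the conjecture is trivial, because most boxes are centred; and
the inequality itself is trivial for centres at a distance at most `K N` from the origin.

We prove that, for every exponent `q ≥ n/(n-1)`, the conjectured inequality for ARBITRARY translates
follows from its special case of near-centred conservative smooth translates: a loss `N^γ` in the
special case gives the loss `N^((m+1)γ)` in general.  Hence the conjecture in `ℝ^n` is equivalent to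
its special case at the critical exponent for any one `m` and `η`, and even to the statement that the
loss exponents of the near-centred families are `o(1/m)`.  By the theorem of this folder on smooth
translates these loss exponents are at most `4/m`.  So, if the conjecture fails in `ℝ^n`, they are
exactly of the order `1/m`.
-/

open MeasureTheory Set Filter Topology ENNReal NNReal Metric

namespace Pool.Agent.Results.MP_ac5134_an.SmoothFamiliesSuffice

/-- Euclidean space `ℝ^d`. -/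
abbrev Vec (d : ℕ) : Type := EuclideanSpace ℝ (Fin d)

/-- Euclidean space `ℝ^{d+1}`, written as `ℝ^d × ℝ` with the Euclidean norm. -/
abbrev Space (d : ℕ) : Type := WithLp 2 (Vec d × ℝ)

/-- The unit normal `(-2ω, 1)/√(1+4|ω|²)` of the paraboloid at the point over `ω`. -/
noncomputable def nor {d : ℕ} (ω : Vec d) : Space d :=
  (√(1 + ‖-(2 : ℝ) • ω‖ ^ 2))⁻¹ • WithLp.toLp 2 (-(2 : ℝ) • ω, (1:ℝ))

/-- The box with centre `a`, with one side of length `N²` in the direction `e` and with sides of length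
`N` in the directions `f j`. -/
def box {d : ℕ} (N : ℝ) (e : Space d) (f : Fin d → Space d) (a : Space d) : Set (Space d) :=
  {y | |inner ℝ e (y - a)| ≤ N ^ 2 / 2 ∧ ∀ j, |inner ℝ (f j) (y - a)| ≤ N / 2}

/-- The caps have centres `ω i` in the closed unit ball, `σ/N`-separated and at least `κ N^d` in
number, and `f i` is an orthonormal frame of the orthogonal complement of the normal at `ω i`. -/
def Caps {d : ℕ} {ι : Type} [Fintype ι] (σ κ N : ℝ) (ω : ι → Vec d) (f : ι → Fin d → Space d) : Prop :=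
  (∀ i, ‖ω i‖ ≤ 1) ∧ (∀ i j, i ≠ j → σ / N ≤ ‖ω i - ω j‖) ∧ κ * N ^ d ≤ (Fintype.card ι : ℝ) ∧
    ∀ i, Orthonormal ℝ (Fin.cons (nor (ω i)) (f i) : Fin (d + 1) → Space d)

/-- The sum of the indicators of the boxes of the caps with centres `a i`. -/
noncomputable def boxSum {d : ℕ} {ι : Type} [Fintype ι] (N : ℝ) (ω : ι → Vec d)
    (f : ι → Fin d → Space d) (a : ι → Space d) (y : Space d) : ℝ :=
  ∑ i, (box N (nor (ω i)) (f i) (a i)).indicator (fun _ => (1 : ℝ)) y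

/-- The comparison of the `L^p` norms with the constant `C`. -/
def Ineq {d : ℕ} {ι : Type} [Fintype ι] (p : ℝ≥0∞) (C N : ℝ) (ω : ι → Vec d)
    (f : ι → Fin d → Space d) (a : ι → Space d) : Prop :=
  eLpNorm (boxSum N ω f a) p volume ≤ ENNReal.ofReal C * eLpNorm (boxSum N ω f 0) p volume

/-- The centres `a i = (N² ∇φ(ω i), 0)` are near-centred, conservative and smooth of order `m`: the
smooth function `φ` has derivatives of order at most `m + 1` bounded by `η`, the norms of the centres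
are at most `η N^(1 + 1/(m+1))`, and at most `η N^d` centres are different from `0`. -/
def NearCentred {d : ℕ} {ι : Type} [Fintype ι] (m : ℕ) (η N : ℝ) (ω : ι → Vec d)
    (a : ι → Space d) : Prop :=
  ∃ φ : Vec d → ℝ, ContDiff ℝ (⊤ : ℕ∞) φ ∧ (∀ j ≤ m + 1, ∀ v, ‖iteratedFDeriv ℝ j φ v‖ ≤ η) ∧
    (∀ i, a i = WithLp.toLp 2 (N ^ 2 • gradient φ (ω i), (0:ℝ))) ∧
    (∀ i, ‖a i‖ ≤ η * N ^ (1 + 1 / ((m : ℝ) + 1))) ∧
    (Nat.card {i // a i ≠ 0} : ℝ) ≤ η * N ^ d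

/-- The inequality at the exponent `q` with the loss `N^γ` for the near-centred translates (and for
`1/N`-separated caps, at least `N^d` in number). -/
def Near (d m : ℕ) (q η γ : ℝ) : Prop :=
  ∃ A : ℝ, 0 < A ∧ ∀ N : ℝ, 1 ≤ N → ∀ (ι : Type) [Fintype ι] (ω : ι → Vec d)
    (f : ι → Fin d → Space d) (a : ι → Space d), Caps 1 1 N ω f → NearCentred m η N ω a →
    Ineq (ENNReal.ofReal q) (A * N ^ γ) N ω f a

/-- The conjecture in `ℝ^(d+1)` for the exponents `p ≥ q`; `Kakeya d 1` is the whole conjecture. -/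
def Kakeya (d : ℕ) (q : ℝ) : Prop :=
  ∀ σ κ : ℝ, 0 < σ → σ ≤ 1 → 0 < κ → ∀ ε : ℝ, 0 < ε → ∃ C : ℝ, 0 < C ∧ ∀ N : ℝ, 1 ≤ N →
    ∀ (ι : Type) [Fintype ι] (ω : ι → Vec d) (f : ι → Fin d → Space d) (a : ι → Space d),
    Caps σ κ N ω f → ∀ p : ℝ≥0∞, ENNReal.ofReal q ≤ p → Ineq p (C * N ^ ε) N ω f a

theorem exp_eq {d : ℕ} (hd : 1 ≤ d) : ((d : ℝ) + 1) / d = 1 + 1 / (d : ℝ) := by
  have hd0 : (0 : ℝ) < d := by exact_mod_cast hd
  field_simp

theorem Near.mono {d m : ℕ} {q η γ γ' : ℝ} (h : Near d m q η γ) (hγ : γ ≤ γ') : Near d m q η γ' := by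
  obtain ⟨A, hA, hA2⟩ := h
  refine ⟨A, hA, ?_⟩
  intro N hN ι _ ω f a hC hn
  refine (hA2 N hN ι ω f a hC hn).trans (mul_le_mul' (ENNReal.ofReal_le_ofReal ?_) le_rfl)
  exact mul_le_mul_of_nonneg_left (Real.rpow_le_rpow_of_exponent_le hN hγ) hA.le

/-- The critical exponent: the integral. -/
theorem crit_int {d : ℕ} (hd : 1 ≤ d) {m : ℕ} {η γ σ κ : ℝ} (hη : 0 < η) (hγ : 0 ≤ γ) (hσ : 0 < σ)
    (hσ1 : σ ≤ 1) (hκ : 0 < κ) (h : Near d m (((d : ℝ) + 1) / d) η γ) :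
    ∃ C : ℝ, 0 < C ∧ ∀ N : ℝ, 1 ≤ N → ∀ (ι : Type) [Fintype ι] (ω : ι → Vec d)
      (f : ι → Fin d → Space d) (a : ι → Space d), Caps σ κ N ω f →
      ∫⁻ y, Pool.Agent.H810R3.Tub.Fb N ω f a y ^ (1 + 1 / (d : ℝ)) ≤
        ENNReal.ofReal ((C * N ^ (((m : ℝ) + 1) * γ * (1 + 1 / (d : ℝ)))) *
          ((Fintype.card ι : ℝ) ^ (1 / (d : ℝ)) * N ^ (2 * d + 1)) * (1 + Real.log N)) := by
  obtain ⟨A, hA, hA2⟩ := h
  rw [exp_eq hd] at hA2
  have H : Pool.Agent.J4.H89.NC.HypN d m η γ A := by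
    intro N hN ι _ ω f a h1 h2 h3 h4 h5
    exact hA2 N hN ι ω f a ⟨h1, h2, h3, h4⟩ h5
  obtain ⟨C, hC, hC2⟩ := Pool.Agent.J4.H89.NC.main_int hd m hη hγ hA H hσ hσ1 hκ
  refine ⟨C, hC, ?_⟩
  intro N hN ι _ ω f a hcaps
  exact hC2 N hN ι ω f a hcaps.1 hcaps.2.1 hcaps.2.2.1 hcaps.2.2.2

/-- The critical exponent. -/
theorem crit {d : ℕ} (hd : 1 ≤ d) {m : ℕ} {η γ σ κ : ℝ} (hη : 0 < η) (hγ : 0 ≤ γ) (hσ : 0 < σ)
    (hσ1 : σ ≤ 1) (hκ : 0 < κ) (h : Near d m (((d : ℝ) + 1) / d) η γ) :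
    ∃ C : ℝ, 0 < C ∧ ∀ N : ℝ, 1 ≤ N → ∀ (ι : Type) [Fintype ι] (ω : ι → Vec d)
      (f : ι → Fin d → Space d) (a : ι → Space d), Caps σ κ N ω f →
      Ineq (ENNReal.ofReal (((d : ℝ) + 1) / d)) (C * N ^ (((m : ℝ) + 1) * γ)) N ω f a := by
  obtain ⟨C, hC, hC2⟩ := crit_int hd hη hγ hσ hσ1 hκ h
  obtain ⟨D, hD, hD2⟩ := Pool.Agent.J4.H87.Hyp.endpoint hd hκ
  have hd0 : (0 : ℝ) < d := by exact_mod_cast hd
  refine ⟨D * C ^ (1 / (1 + 1 / (d : ℝ))), by positivity, ?_⟩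
  intro N hN ι _ ω f a hcaps
  have hN0 : 0 < N := by linarith
  have hc0 : (0 : ℝ) < (Fintype.card ι : ℝ) := lt_of_lt_of_le (by positivity) hcaps.2.2.1
  have hne : Nonempty ι := by
    rw [← Fintype.card_pos_iff]
    exact_mod_cast hc0
  have h1 := hD2 ι N hN ω f a hcaps.2.2.1 hcaps.2.2.2 _ (by positivity) (hC2 N hN ι ω f a hcaps)
  unfold Ineq
  rw [exp_eq hd]
  refine h1.trans (le_of_eq ?_)
  have e : ((m : ℝ) + 1) * γ * (1 + 1 / (d : ℝ)) * (1 / (1 + 1 / (d : ℝ))) = ((m : ℝ) + 1) * γ := by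
    have : (1 + 1 / (d : ℝ)) ≠ 0 := by positivity
    field_simp
  rw [Real.mul_rpow hC.le (by positivity), ← Real.rpow_mul hN0.le, e, ← mul_assoc]
  rfl

/-- All exponents. -/
theorem all_exp {d : ℕ} (hd : 1 ≤ d) {m : ℕ} {η γ σ κ : ℝ} (hη : 0 < η) (hγ : 0 ≤ γ) (hσ : 0 < σ)
    (hσ1 : σ ≤ 1) (hκ : 0 < κ) (h : Near d m (((d : ℝ) + 1) / d) η γ) :
    ∃ C : ℝ, 0 < C ∧ ∀ N : ℝ, 1 ≤ N → ∀ (ι : Type) [Fintype ι] (ω : ι → Vec d)
      (f : ι → Fin d → Space d) (a : ι → Space d), Caps σ κ N ω f → ∀ p : ℝ≥0∞, 1 ≤ p →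
      Ineq p (C * N ^ (((m : ℝ) + 1) * γ) * (1 + Real.log N) ^ ((d : ℝ) / (d + 1))) N ω f a := by
  obtain ⟨C, hC, hC2⟩ := crit_int hd hη hγ hσ hσ1 hκ h
  have hd0 : (0 : ℝ) < d := by exact_mod_cast hd
  set q : ℝ := 1 + 1 / (d : ℝ) with hq
  have hinv : 0 < 1 / (d : ℝ) := by positivity
  have hq1 : 1 < q := by linarith
  have hq0 : 0 < q := by linarith
  have hw0 := Pool.Agent.H810R3.Tub.wv_pos d
  set w := Pool.Agent.H810R3.Tub.wv d with hw
  set b : ℝ := (1 + (d : ℝ)) ^ (d + 1) * w with hb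
  have hb0 : 0 < b := by positivity
  set C0 : ℝ := 1 + C * b ^ (1 / (d : ℝ)) * κ⁻¹ + C * 2 ^ (d + 1) * (κ * w)⁻¹ with hC0
  have hx0 : 0 ≤ C * b ^ (1 / (d : ℝ)) * κ⁻¹ := by positivity
  have hx1 : 0 ≤ C * 2 ^ (d + 1) * (κ * w)⁻¹ := by positivity
  have hC1 : 1 ≤ C0 := by linarith
  have hC00 : 0 < C0 := by linarith
  refine ⟨C0 ^ (1 / q), by positivity, ?_⟩
  intro N hN ι _ ω f a hcaps p hp
  have hcard := hcaps.2.2.1
  have hN0 : 0 < N := by linarith
  have hc0 : (0 : ℝ) < (Fintype.card ι : ℝ) := lt_of_lt_of_le (by positivity) hcard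
  have hne : Nonempty ι := by
    rw [← Fintype.card_pos_iff]
    exact_mod_cast hc0
  have hlog := Real.log_nonneg hN
  have hl0 : 0 < 1 + Real.log N := by linarith
  set c : ℝ := (Fintype.card ι : ℝ) with hc
  set S : ℝ := N ^ (((m : ℝ) + 1) * γ) with hS
  have hS1 : 1 ≤ S := Real.one_le_rpow hN (by positivity)
  have hS0 : 0 < S := by linarith
  have e0 : (d : ℝ) / (d + 1) = 1 / q := by
    rw [hq]
    field_simp
  rw [e0]
  set D : ℝ := C0 ^ (1 / q) * S * (1 + Real.log N) ^ (1 / q) with hD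
  have hD1 : 1 ≤ D := by
    have h1 : 1 ≤ C0 ^ (1 / q) := Real.one_le_rpow hC1 (by positivity)
    have h2 : 1 ≤ (1 + Real.log N) ^ (1 / q) := Real.one_le_rpow (by linarith) (by positivity)
    exact one_le_mul_of_one_le_of_one_le (one_le_mul_of_one_le_of_one_le h1 hS1) h2
  have hDq : D ^ q = C0 * S ^ q * (1 + Real.log N) := by
    rw [hD, Real.mul_rpow (by positivity) (by positivity), Real.mul_rpow (by positivity) (by positivity),
      ← Real.rpow_mul hC00.le, ← Real.rpow_mul hl0.le, one_div_mul_cancel hq0.ne', Real.rpow_one,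
      Real.rpow_one]
  have hSq : N ^ (((m : ℝ) + 1) * γ * q) = S ^ q := by
    rw [hS, ← Real.rpow_mul hN0.le]
  have hint := hC2 N hN ι ω f a hcaps
  rw [← hc] at hint
  set z : ℝ := c ^ (1 / (d : ℝ)) with hz
  have hz0 : 0 < z := Real.rpow_pos_of_pos hc0 _
  have hSq0 : 0 < S ^ q := Real.rpow_pos_of_pos hS0 _
  have hcq : c ^ q = z * c := by
    rw [hq, Real.rpow_add hc0, Real.rpow_one, mul_comm]
  have hdq : (d : ℝ) * q = d + 1 := by
    rw [hq]
    field_simp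
  refine Pool.Agent.H810R3.Tub.compare d hN hq1 (by positivity) hD1 ω f hcaps.2.2.2 a hint ?_ ?_ p hp
  · rw [hDq, ← hc, Real.mul_rpow hc0.le (by positivity), hcq, ← hw, ← hb]
    have e1 : (b * N ^ (2 * (d + 1))) ^ (q - 1) = b ^ (1 / (d : ℝ)) * N ^ (2 * q) := by
      have e2 : q - 1 = 1 / (d : ℝ) := by rw [hq]; ring
      rw [e2, Real.mul_rpow hb0.le (by positivity), ← Real.rpow_natCast N (2 * (d + 1)), ← Real.rpow_mul hN0.le]
      congr 2
      push_cast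
      rw [hq]
      field_simp
    have e3 : (N ^ (d + 2)) ^ q = N ^ d * N * N ^ (2 * q) := by
      rw [← Real.rpow_natCast N (d + 2), ← Real.rpow_mul hN0.le, ← Real.rpow_natCast N d]
      nth_rewrite 3 [← Real.rpow_one N]
      rw [← Real.rpow_add hN0, ← Real.rpow_add hN0]
      congr 1
      push_cast
      linarith
    have e4 : N ^ (2 * d + 1) = N ^ d * (N ^ d * N) := by
      rw [← pow_succ, ← pow_add]
      congr 1
      omega
    rw [e1, e3, hSq, e4]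
    have hN2 : 0 < N ^ (2 * q) := Real.rpow_pos_of_pos hN0 _
    calc C * S ^ q * (z * (N ^ d * (N ^ d * N))) * (1 + Real.log N) * (b ^ (1 / (d : ℝ)) * N ^ (2 * q))
        = (C * b ^ (1 / (d : ℝ)) * κ⁻¹) * S ^ q * (1 + Real.log N) *
            (z * (κ * N ^ d) * (N ^ d * N * N ^ (2 * q))) := by
          field_simp
      _ ≤ C0 * S ^ q * (1 + Real.log N) * (z * c * (N ^ d * N * N ^ (2 * q))) := by
          have h3 : C * b ^ (1 / (d : ℝ)) * κ⁻¹ ≤ C0 := by linarith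
          gcongr
  · rw [hDq, ← hc, hcq, ← hw, hSq]
    have e4 : N ^ (2 * d + 1) = N ^ d * (N ^ d * N) := by
      rw [← pow_succ, ← pow_add]
      congr 1
      omega
    have e5 : (N / 2) ^ (d + 1) = N ^ d * N / 2 ^ (d + 1) := by
      rw [div_pow, pow_succ N]
    rw [e4, e5]
    calc C * S ^ q * (z * (N ^ d * (N ^ d * N))) * (1 + Real.log N)
        = (C * 2 ^ (d + 1) * (κ * w)⁻¹) * S ^ q * (1 + Real.log N) *
            (z * (κ * N ^ d) * (N ^ d * N / 2 ^ (d + 1) * w)) := by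
          field_simp
      _ ≤ C0 * S ^ q * (1 + Real.log N) * (z * c * (N ^ d * N / 2 ^ (d + 1) * w)) := by
          have h3 : C * 2 ^ (d + 1) * (κ * w)⁻¹ ≤ C0 := by linarith
          gcongr

/-- The exponents above the critical one. -/
theorem above {d : ℕ} (hd : 1 ≤ d) {m : ℕ} {q η γ σ κ : ℝ} (hq : ((d : ℝ) + 1) / d < q) (hη : 0 < η)
    (hγ : 0 ≤ γ) (hσ : 0 < σ) (hσ1 : σ ≤ 1) (hκ : 0 < κ) (h : Near d m q η γ) :
    ∃ C : ℝ, 0 < C ∧ ∀ N : ℝ, 1 ≤ N → ∀ (ι : Type) [Fintype ι] (ω : ι → Vec d)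
      (f : ι → Fin d → Space d) (a : ι → Space d), Caps σ κ N ω f → ∀ p : ℝ≥0∞, ENNReal.ofReal q ≤ p →
      Ineq p (C * N ^ (((m : ℝ) + 1) * γ)) N ω f a := by
  obtain ⟨A, hA, hA2⟩ := h
  rw [exp_eq hd] at hq
  have H : Pool.Agent.J4.H89.NC.HypQ d m q η γ A := by
    intro N hN ι _ ω f a h1 h2 h3 h4 h5
    exact hA2 N hN ι ω f a ⟨h1, h2, h3, h4⟩ h5
  obtain ⟨C, hC, hC2⟩ := Pool.Agent.J4.H89.NC.main_q hd m hq hη hγ hA H hσ hσ1 hκ
  refine ⟨C, hC, ?_⟩
  intro N hN ι _ ω f a hcaps p hp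
  exact hC2 N hN ι ω f a hcaps.1 hcaps.2.1 hcaps.2.2.1 hcaps.2.2.2 p hp

/-- The unconditional bound. -/
theorem smooth_bound {d : ℕ} (hd : 1 ≤ d) {m : ℕ} {q η : ℝ} (hm : 1 ≤ m) (hq : 1 ≤ q) (hη : 0 < η) :
    Near d m q η (4 / m) := by
  obtain ⟨k, rfl⟩ : ∃ k, m = k + 1 := ⟨m - 1, by omega⟩
  have hk0 : (0 : ℝ) < ((k + 1 : ℕ) : ℝ) := by positivity
  obtain ⟨C, hC, hC2⟩ := Pool.Agent.Results.MP_ac5134_an.SmoothTranslates.result d hd k
    (4 / ((k + 1 : ℕ) : ℝ)) 1 1 (by positivity) (by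
      push_cast
      have h0 : (0 : ℝ) < (k : ℝ) + 1 := by positivity
      rw [div_div_eq_mul_div, mul_div_assoc]
      linarith) one_pos le_rfl one_pos
  refine ⟨C * (1 + 0 + η + 0) ^ d, by positivity, ?_⟩
  intro N hN ι _ ω f a hcaps hn
  obtain ⟨φ, hφ, hφ2, ha, -, -⟩ := hn
  have hb : ContDiff ℝ (k + 1 : ℕ) (gradient φ) := by
    have h1 : gradient φ = (InnerProductSpace.toDual ℝ (Vec d)).symm ∘ (fderiv ℝ φ) := rfl
    rw [h1]
    apply (InnerProductSpace.toDual ℝ (Vec d)).symm.contDiff.comp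
    have h2 : ContDiff ℝ (⊤ : ℕ∞) (fderiv ℝ φ) := hφ.fderiv_right (by simp)
    exact h2.of_le (by exact_mod_cast (le_top : ((k + 1 : ℕ) : ℕ∞) ≤ ⊤))
  have h := hC2 ⟨η, hη.le⟩ 0 0 (gradient φ) hb (by
    intro j hj v _
    rw [Pool.Agent.J4.H89.NC.norm_iter_gradient]
    exact hφ2 (j + 1) (by omega) v) N hN ι ω (fun i => N ^ 2 • gradient φ (ω i)) (fun _ => 0) f
    hcaps.1 hcaps.2.1 hcaps.2.2.1 hcaps.2.2.2 (by
      intro i
      simp) (by
      intro i
      simp) (ENNReal.ofReal q) (by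
      rw [← ENNReal.ofReal_one]
      exact ENNReal.ofReal_le_ofReal hq)
  have e : (fun i => (WithLp.toLp 2 (N ^ 2 • gradient φ (ω i) + (0:ℝ) • (-(2 : ℝ) • ω i), (0:ℝ)) : Space d)) =
      a := by
    funext i
    rw [zero_smul, add_zero, ha i]
  have e2 : (fun y : Space d => ∑ i, (Pool.Agent.H810R3.Tub.box N (Pool.Agent.H810R3.Tub.nor (ω i)) (f i)
      (WithLp.toLp 2 (N ^ 2 • gradient φ (ω i) + (0:ℝ) • (-(2 : ℝ) • ω i), (0:ℝ)))).indicator
        (fun _ => (1 : ℝ)) y) = boxSum N ω f a := by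
    rw [← e]
    rfl
  rw [e2] at h
  exact h

theorem log_absorb {d : ℕ} {ε : ℝ} (hε : 0 < ε) {N : ℝ} (hN : 1 ≤ N) :
    (1 + Real.log N) ^ ((d : ℝ) / (d + 1)) ≤ (1 + 1 / ε) * N ^ ε := by
  have hN0 : 0 < N := by linarith
  have hlog := Real.log_nonneg hN
  have h1 : (1 + Real.log N) ^ ((d : ℝ) / (d + 1)) ≤ (1 + Real.log N) ^ (1 : ℝ) := by
    apply Real.rpow_le_rpow_of_exponent_le (by linarith)
    rw [div_le_one (by positivity)]
    linarith
  rw [Real.rpow_one] at h1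
  have h2 := Real.log_le_rpow_div hN0.le hε
  have h3 : 1 ≤ N ^ ε := Real.one_le_rpow hN hε.le
  calc (1 + Real.log N) ^ ((d : ℝ) / (d + 1)) ≤ 1 + Real.log N := h1
    _ ≤ N ^ ε + N ^ ε / ε := add_le_add h3 h2
    _ = _ := by ring

/-- The near-centred families with small losses suffice. -/
theorem suffices_all {d : ℕ} (hd : 1 ≤ d)
    (h : ∀ ε : ℝ, 0 < ε → ∃ (m : ℕ) (η : ℝ), 0 < η ∧ Near d m (((d : ℝ) + 1) / d) η (ε / (m + 1))) :
    Kakeya d 1 := by
  intro σ κ hσ hσ1 hκ ε hε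
  obtain ⟨m, η, hη, hn⟩ := h (ε / 2) (by linarith)
  have hm0 : (0 : ℝ) < (m : ℝ) + 1 := by positivity
  obtain ⟨C, hC, hC2⟩ := all_exp hd hη (by positivity) hσ hσ1 hκ hn
  refine ⟨C * (1 + 1 / (ε / 2)), by positivity, ?_⟩
  intro N hN ι _ ω f a hcaps p hp
  rw [ENNReal.ofReal_one] at hp
  have hN0 : 0 < N := by linarith
  refine (hC2 N hN ι ω f a hcaps p hp).trans (mul_le_mul' (ENNReal.ofReal_le_ofReal ?_) le_rfl)
  have e : ((m : ℝ) + 1) * (ε / 2 / (m + 1)) = ε / 2 := by field_simp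
  rw [e]
  have h1 := log_absorb (d := d) (by linarith : 0 < ε / 2) hN
  calc C * N ^ (ε / 2) * (1 + Real.log N) ^ ((d : ℝ) / (d + 1))
      ≤ C * N ^ (ε / 2) * ((1 + 1 / (ε / 2)) * N ^ (ε / 2)) := by gcongr
    _ = C * (1 + 1 / (ε / 2)) * (N ^ (ε / 2) * N ^ (ε / 2)) := by ring
    _ = C * (1 + 1 / (ε / 2)) * N ^ ε := by
        rw [← Real.rpow_add hN0]
        congr 2
        ring

theorem suffices_q {d : ℕ} (hd : 1 ≤ d) {q : ℝ} (hq : ((d : ℝ) + 1) / d ≤ q)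
    (h : ∀ ε : ℝ, 0 < ε → ∃ (m : ℕ) (η : ℝ), 0 < η ∧ Near d m q η (ε / (m + 1))) :
    Kakeya d q := by
  rcases hq.eq_or_lt with hq | hq
  · rw [← hq] at h ⊢
    intro σ κ hσ hσ1 hκ ε hε
    obtain ⟨C, hC, hC2⟩ := suffices_all hd h σ κ hσ hσ1 hκ ε hε
    refine ⟨C, hC, ?_⟩
    intro N hN ι _ ω f a hcaps p hp
    refine hC2 N hN ι ω f a hcaps p (le_trans ?_ hp)
    apply ENNReal.ofReal_le_ofReal
    rw [exp_eq hd]
    have : 0 ≤ 1 / (d : ℝ) := by positivity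
    linarith
  · intro σ κ hσ hσ1 hκ ε hε
    obtain ⟨m, η, hη, hn⟩ := h ε hε
    have hm0 : (0 : ℝ) < (m : ℝ) + 1 := by positivity
    obtain ⟨C, hC, hC2⟩ := above hd hq hη (by positivity) hσ hσ1 hκ hn
    refine ⟨C, hC, ?_⟩
    intro N hN ι _ ω f a hcaps p hp
    have h1 := hC2 N hN ι ω f a hcaps p hp
    have e : ((m : ℝ) + 1) * (ε / (m + 1)) = ε := by field_simp
    rwa [e] at h1

theorem necessary {d : ℕ} {q : ℝ} (h : Kakeya d q) (m : ℕ) (η ε : ℝ) (hε : 0 < ε) :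
    Near d m q η ε := by
  obtain ⟨C, hC, hC2⟩ := h 1 1 one_pos le_rfl one_pos ε hε
  refine ⟨C, hC, ?_⟩
  intro N hN ι _ ω f a hcaps _
  exact hC2 N hN ι ω f a hcaps _ le_rfl

theorem equiv {d : ℕ} (hd : 1 ≤ d) {q : ℝ} (hq : ((d : ℝ) + 1) / d ≤ q) :
    List.TFAE [Kakeya d q,
      ∀ (m : ℕ) (η ε : ℝ), 0 < η → 0 < ε → Near d m q η ε,
      ∃ (m : ℕ) (η : ℝ), 0 < η ∧ ∀ ε : ℝ, 0 < ε → Near d m q η ε,
      ∀ ε : ℝ, 0 < ε → ∃ (m : ℕ) (η : ℝ), 0 < η ∧ Near d m q η (ε / (m + 1))] := by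
  tfae_have 1 → 2 := fun h m η ε _ hε => necessary h m η ε hε
  tfae_have 2 → 3 := fun h => ⟨0, 1, one_pos, fun ε hε => h 0 1 ε one_pos hε⟩
  tfae_have 3 → 4 := by
    rintro ⟨m, η, hη, h⟩ ε hε
    exact ⟨m, η, hη, h _ (by positivity)⟩
  tfae_have 4 → 1 := suffices_q hd hq
  tfae_finish

/-- **Near-centred conservative smooth translates suffice.** (1) If the inequality holds at the critical
exponent `n/(n-1) = (d+1)/d` with the loss `N^γ` for the near-centred conservative smooth translates of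
order `m`, then it holds for all translates: at the critical exponent with the loss `C N^((m+1)γ)`, and
for all `p` in `[1, ∞]` with the loss `C N^((m+1)γ) (1 + log N)^(d/(d+1))`.  (2) If it holds at an
exponent `q > n/(n-1)` with the loss `N^γ` for the near-centred translates of order `m`, then it holds
for all translates and all `p` in `[q, ∞]` with the loss `C N^((m+1)γ)`.  (3) For every exponent
`q ≥ n/(n-1)` the conjecture for the exponents `p ≥ q` and all translates is equivalent to its special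
case of near-centred translates at the exponent `q` for one order `m` and one `η`, and also to the
existence, for every `ε > 0`, of an order `m` for which they have the loss `N^(ε/(m+1))`.  (4) The
conjecture for all `p ≥ 1` is equivalent to the conjecture for `p ≥ n/(n-1)`.  (5) The near-centred
translates of order `m` have the loss `N^(4/m)`.  (6) If the conjecture for the exponents `p ≥ q`, where
`q ≥ n/(n-1)`, is false, then there is `c > 0` such that no near-centred translates of order `m`, for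
any `m` and `η`, have a loss `N^γ` at the exponent `q` with `γ < c/(m+1)`. -/
theorem result (d : ℕ) (hd : 1 ≤ d) :
    (∀ (m : ℕ) (η γ σ κ : ℝ), 0 < η → 0 ≤ γ → 0 < σ → σ ≤ 1 → 0 < κ →
      Near d m (((d : ℝ) + 1) / d) η γ → ∃ C : ℝ, 0 < C ∧ ∀ N : ℝ, 1 ≤ N → ∀ (ι : Type) [Fintype ι]
      (ω : ι → Vec d) (f : ι → Fin d → Space d) (a : ι → Space d), Caps σ κ N ω f →
      Ineq (ENNReal.ofReal (((d : ℝ) + 1) / d)) (C * N ^ (((m : ℝ) + 1) * γ)) N ω f a ∧
      ∀ p : ℝ≥0∞, 1 ≤ p →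
        Ineq p (C * N ^ (((m : ℝ) + 1) * γ) * (1 + Real.log N) ^ ((d : ℝ) / (d + 1))) N ω f a) ∧
    (∀ (m : ℕ) (q η γ σ κ : ℝ), ((d : ℝ) + 1) / d < q → 0 < η → 0 ≤ γ → 0 < σ → σ ≤ 1 → 0 < κ →
      Near d m q η γ → ∃ C : ℝ, 0 < C ∧ ∀ N : ℝ, 1 ≤ N → ∀ (ι : Type) [Fintype ι]
      (ω : ι → Vec d) (f : ι → Fin d → Space d) (a : ι → Space d), Caps σ κ N ω f →
      ∀ p : ℝ≥0∞, ENNReal.ofReal q ≤ p → Ineq p (C * N ^ (((m : ℝ) + 1) * γ)) N ω f a) ∧
    (∀ q : ℝ, ((d : ℝ) + 1) / d ≤ q → List.TFAE [Kakeya d q,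
      ∀ (m : ℕ) (η ε : ℝ), 0 < η → 0 < ε → Near d m q η ε,
      ∃ (m : ℕ) (η : ℝ), 0 < η ∧ ∀ ε : ℝ, 0 < ε → Near d m q η ε,
      ∀ ε : ℝ, 0 < ε → ∃ (m : ℕ) (η : ℝ), 0 < η ∧ Near d m q η (ε / (m + 1))]) ∧
    (Kakeya d 1 ↔ Kakeya d (((d : ℝ) + 1) / d)) ∧
    (∀ (m : ℕ) (q η : ℝ), 1 ≤ m → 1 ≤ q → 0 < η → Near d m q η (4 / m)) ∧
    (∀ q : ℝ, ((d : ℝ) + 1) / d ≤ q → ¬ Kakeya d q → ∃ c : ℝ, 0 < c ∧ ∀ (m : ℕ) (η γ : ℝ), 0 < η →
      γ < c / (m + 1) → ¬ Near d m q η γ) := by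
  refine ⟨?_, ?_, fun q hq => equiv hd hq, ⟨?_, ?_⟩, fun m q η hm hq hη => smooth_bound hd hm hq hη, ?_⟩
  · intro m η γ σ κ hη hγ hσ hσ1 hκ h
    obtain ⟨C1, hC1, h1⟩ := crit hd hη hγ hσ hσ1 hκ h
    obtain ⟨C2, hC2, h2⟩ := all_exp hd hη hγ hσ hσ1 hκ h
    refine ⟨C1 + C2, by linarith, ?_⟩
    intro N hN ι _ ω f a hcaps
    have hlog := Real.log_nonneg hN
    have hN0 : 0 < N := by linarith
    constructor
    · refine (h1 N hN ι ω f a hcaps).trans (mul_le_mul' (ENNReal.ofReal_le_ofReal ?_) le_rfl)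
      apply mul_le_mul_of_nonneg_right (by linarith) (by positivity)
    · intro p hp
      refine (h2 N hN ι ω f a hcaps p hp).trans (mul_le_mul' (ENNReal.ofReal_le_ofReal ?_) le_rfl)
      apply mul_le_mul_of_nonneg_right _ (by positivity)
      apply mul_le_mul_of_nonneg_right (by linarith) (by positivity)
  · intro m q η γ σ κ hq hη hγ hσ hσ1 hκ h
    exact above hd hq hη hγ hσ hσ1 hκ h
  · intro h σ κ hσ hσ1 hκ ε hε
    obtain ⟨C, hC, hC2⟩ := h σ κ hσ hσ1 hκ ε hε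
    refine ⟨C, hC, ?_⟩
    intro N hN ι _ ω f a hcaps p hp
    refine hC2 N hN ι ω f a hcaps p (le_trans ?_ hp)
    apply ENNReal.ofReal_le_ofReal
    rw [exp_eq hd]
    have : 0 ≤ 1 / (d : ℝ) := by positivity
    linarith
  · intro h
    exact suffices_all hd (((equiv hd le_rfl).out 0 3).1 h)
  · intro q hq hK
    have h1 : ¬ ∀ ε : ℝ, 0 < ε → ∃ (m : ℕ) (η : ℝ), 0 < η ∧ Near d m q η (ε / (m + 1)) :=
      fun h => hK (((equiv hd hq).out 0 3).2 h)
    push Not at h1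
    obtain ⟨ε, hε, h2⟩ := h1
    refine ⟨ε, hε, ?_⟩
    intro m η γ hη hγ hn
    exact h2 m η hη (hn.mono hγ.le)

end Pool.Agent.Results.MP_ac5134_an.SmoothFamiliesSuffice
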